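import Pool.Agent.E8helper19.LC.Stm3

set_option autoImplicit false
open MeasureTheory Filter Topology Set
open Pool.Agent.E8helper19.LC

namespace Pool.Agent.E8helper70.LC

theorem norm_pw (k s : ℝ) : ‖pw k s‖ = 1 := by
  have h : pw k s = Complex.exp (((k * s : ℝ) : ℂ) * Complex.I) := by
    rw [pw]; congr 1; push_cast; ring
  rw [h, Complex.norm_exp_ofReal_mul_I]

theorem cont_pw (k : ℝ) : Continuous (pw k) := by
  have h : pw k = fun s : ℝ => Complex.exp (Complex.I * k * s) := rfl
  rw [h]
  fun_prop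

theorem cont_g0 (k : ℝ) : Continuous (g0 k) := by
  have h : g0 k = fun s : ℝ => Complex.I / (2 * k) * pw k |s| := rfl
  rw [h]
  exact continuous_const.mul ((cont_pw k).comp continuous_abs)

theorem norm_g0 (k s : ℝ) : ‖g0 k s‖ = ‖Complex.I / (2 * (k : ℂ))‖ := by
  rw [g0, norm_mul, norm_pw, mul_one]

theorem g0_symm (k s t : ℝ) : g0 k (s - t) = g0 k (t - s) := by
  rw [g0, g0, abs_sub_comm]

/-- convolution with `g0` -/
noncomputable def cv (k : ℝ) (b : ℝ → ℂ) (s : ℝ) : ℂ := ∫ t, g0 k (s - t) * b t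

theorem int_g0_mul (k : ℝ) {b : ℝ → ℂ} (hb : Integrable b) (s : ℝ) :
    Integrable (fun t => g0 k (s - t) * b t) := by
  refine hb.bdd_mul (c := ‖Complex.I / (2 * (k : ℂ))‖) ?_ ?_
  · exact ((cont_g0 k).comp (continuous_const.sub continuous_id)).aestronglyMeasurable
  · exact Eventually.of_forall fun t => (norm_g0 k _).le

theorem int_prod (k : ℝ) {a b : ℝ → ℂ} (ha : Integrable a) (hb : Integrable b) :
    Integrable (fun z : ℝ × ℝ => g0 k (z.1 - z.2) * (a z.1 * b z.2)) (volume.prod volume) := by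
  refine (ha.mul_prod hb).bdd_mul (c := ‖Complex.I / (2 * (k : ℂ))‖) ?_ ?_
  · exact ((cont_g0 k).comp (continuous_fst.sub continuous_snd)).aestronglyMeasurable
  · exact Eventually.of_forall fun t => (norm_g0 k _).le

theorem inner_eq (k : ℝ) (a b : ℝ → ℂ) (s : ℝ) :
    ∫ t, g0 k (s - t) * (a s * b t) = a s * cv k b s := by
  rw [cv, ← integral_const_mul]
  congr 1
  funext t
  ring

theorem int_mul_cv (k : ℝ) {a b : ℝ → ℂ} (ha : Integrable a) (hb : Integrable b) :
    Integrable (fun s => a s * cv k b s) := by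
  have h := (int_prod k ha hb).integral_prod_left
  refine h.congr (Eventually.of_forall fun s => ?_)
  exact inner_eq k a b s

theorem swap (k : ℝ) {a b : ℝ → ℂ} (ha : Integrable a) (hb : Integrable b) :
    ∫ s, a s * cv k b s = ∫ s, b s * cv k a s := by
  have h1 : ∫ s, a s * cv k b s = ∫ s, ∫ t, g0 k (s - t) * (a s * b t) := by
    congr 1; funext s; exact (inner_eq k a b s).symm
  have h2 : ∫ s, b s * cv k a s = ∫ s, ∫ t, g0 k (s - t) * (b s * a t) := by
    congr 1; funext s; exact (inner_eq k b a s).symm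
  rw [h1, h2, integral_integral_swap (int_prod k ha hb)]
  congr 1; funext s
  congr 1; funext t
  rw [g0_symm k t s]
  ring

theorem BC.int_mul {f h : ℝ → ℂ} (hf : BC f) (hh : Integrable h) :
    Integrable (fun s => f s * h s) := by
  obtain ⟨C, hC⟩ := hf.bdd
  exact hh.bdd_mul (c := C) hf.cont.aestronglyMeasurable (Eventually.of_forall hC)

theorem int_V {V : ℝ → ℝ} {f : ℝ → ℂ} (hV : Continuous V) (hVc : HasCompactSupport V)
    (hf : Continuous f) : Integrable (fun s => (V s : ℂ) * f s) := by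
  refine Continuous.integrable_of_hasCompactSupport ?_ ?_
  · exact (Complex.continuous_ofReal.comp hV).mul hf
  · have h : HasCompactSupport (fun s => (V s : ℂ)) :=
      hVc.comp_left (g := fun x : ℝ => (x : ℂ)) Complex.ofReal_zero
    exact h.mul_right

theorem t_REC : S_REC := by
  intro k V f g h hk hV hVc hf hg hh hfe hge
  have iVf := int_V hV hVc hf.cont
  have iVg := int_V hV hVc hg.cont
  have iφ : Integrable (fun s => h s - (V s : ℂ) * f s) := hh.sub iVf
  have hK : ∀ (u : ℝ → ℂ) (s : ℝ), K0 k V u s = cv k (fun t => (V t : ℂ) * u t) s := fun u s => rfl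
  have e1 : ∫ s, pw (-k) s * (h s - (V s : ℂ) * f s) =
      (∫ s, g s * (h s - (V s : ℂ) * f s)) -
        ∫ s, (h s - (V s : ℂ) * f s) * cv k (fun t => (V t : ℂ) * g t) s := by
    rw [← integral_sub (BC.int_mul hg iφ) (int_mul_cv k iφ iVg)]
    congr 1; funext s
    have := hge s
    rw [hK] at this
    have h2 : pw (-k) s = g s - cv k (fun t => (V t : ℂ) * g t) s := by rw [this]; ring
    rw [h2]; ring
  have e2 : ∫ s, (h s - (V s : ℂ) * f s) * cv k (fun t => (V t : ℂ) * g t) s =
      ∫ s, ((V s : ℂ) * g s) * cv k (fun s => h s - (V s : ℂ) * f s) s := swap k iφ iVg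
  have e3 : ∀ s, cv k (fun s => h s - (V s : ℂ) * f s) s = cv k h s - (f s - pw k s) := by
    intro s
    have h1 : cv k (fun s => h s - (V s : ℂ) * f s) s =
        cv k h s - cv k (fun t => (V t : ℂ) * f t) s := by
      rw [cv, cv, cv, ← integral_sub (int_g0_mul k hh s) (int_g0_mul k iVf s)]
      congr 1; funext t; ring
    have h2 := hfe s
    rw [hK] at h2
    rw [h1]
    have h3 : cv k (fun t => (V t : ℂ) * f t) s = f s - pw k s := by rw [h2]; ring
    rw [h3]
  have iA : Integrable (fun s => ((V s : ℂ) * g s) * cv k h s) := int_mul_cv k iVg hh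
  have iB : Integrable (fun s => ((V s : ℂ) * g s) * (f s - pw k s)) := by
    have h1 := int_V hV hVc (hg.cont.mul (hf.cont.sub (cont_pw k)))
    refine h1.congr (Eventually.of_forall fun s => ?_)
    show (V s : ℂ) * (g s * (f s - pw k s)) = _
    ring
  have e4 : ∫ s, ((V s : ℂ) * g s) * cv k (fun s => h s - (V s : ℂ) * f s) s =
      (∫ s, ((V s : ℂ) * g s) * cv k h s) - ∫ s, ((V s : ℂ) * g s) * (f s - pw k s) := by
    rw [← integral_sub iA iB]
    congr 1; funext s
    rw [e3]; ring
  have iF : Integrable (fun s => g s * (h s - (V s : ℂ) * f s)) := BC.int_mul hg iφ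
  have iG : Integrable (fun s => (V s : ℂ) * g s * cv k h s -
      (V s : ℂ) * g s * (f s - pw k s)) := iA.sub iB
  rw [e1, e2, e4, ← integral_sub iA iB, ← integral_sub iF iG]
  congr 1; funext s
  show _ = g s * (h s - (V s : ℂ) * (pw k s + cv k h s))
  ring

end Pool.Agent.E8helper70.LC
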